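import Mathlib

set_option autoImplicit false

namespace Pool.Agent.MP_fcd74d_nt.H23

open Finset

/-- A set of pairwise congruent numbers below `M` has at most `M / q + 1` elements. -/
theorem card_le_of_congr (M q : ℕ) (S : Finset ℕ) (hS : S ⊆ range M)
    (hc : ∀ a ∈ S, ∀ b ∈ S, a % q = b % q) : (S.card : ℝ) ≤ (M : ℝ) / q + 1 := by
  have h1 : S.card ≤ (range (M / q + 1)).card := by
    refine Finset.card_le_card_of_injOn (fun j => j / q) ?_ ?_
    · intro j hj
      have hj' : j < M := by simpa using hS hj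
      have : j / q ≤ M / q := Nat.div_le_div_right hj'.le
      simp only [coe_range, Set.mem_Iio]
      omega
    · intro a ha b hb hab
      have h2 := hc a ha b hb
      have h3 : a / q = b / q := hab
      rw [← Nat.div_add_mod a q, ← Nat.div_add_mod b q, h2, h3]
  rw [card_range] at h1
  have h2 : ((M / q : ℕ) : ℝ) ≤ (M : ℝ) / q := Nat.cast_div_le
  have h3 : (S.card : ℝ) ≤ ((M / q + 1 : ℕ) : ℝ) := by exact_mod_cast h1
  push_cast at h3
  linarith

/-- Few primes in a dyadic block. -/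
theorem block_card (a y : ℕ) (hy : 2 ^ a ≤ y) :
    a * ((Ioc y (2 * y)).filter Nat.Prime).card ≤ 4 * y := by
  set T := (Ioc y (2 * y)).filter Nat.Prime with hT
  have h1 : (2 ^ a) ^ T.card ≤ ∏ p ∈ T, p := by
    apply Finset.pow_card_le_prod
    intro p hp
    have := (mem_Ioc.1 (mem_filter.1 hp).1).1
    omega
  have h2 : ∏ p ∈ T, p ≤ primorial (2 * y) := by
    unfold primorial
    apply Finset.prod_le_prod_of_subset_of_one_le'
    · intro p hp
      have h := mem_filter.1 hp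
      have h' := (mem_Ioc.1 h.1).2
      exact mem_filter.2 ⟨mem_range.2 (by omega), h.2⟩
    · intro p hp _
      exact (mem_filter.1 hp).2.one_le
  have h3 : primorial (2 * y) ≤ 4 ^ (2 * y) := primorial_le_four_pow _
  have h4 : 2 ^ (a * T.card) ≤ 2 ^ (4 * y) := by
    calc 2 ^ (a * T.card) = (2 ^ a) ^ T.card := pow_mul _ _ _
      _ ≤ 4 ^ (2 * y) := h1.trans (h2.trans h3)
      _ = 2 ^ (4 * y) := by
        rw [show (4 : ℕ) = 2 ^ 2 from rfl, ← pow_mul]; congr 1; ring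
  exact (Nat.pow_le_pow_iff_right (by norm_num)).1 h4

theorem block_sum (a y : ℕ) (ha : 0 < a) (hy : 2 ^ a ≤ y) :
    ∑ p ∈ (Ioc y (2 * y)).filter Nat.Prime, (1 : ℝ) / (p : ℝ) ^ 2 ≤ 4 / (a * y) := by
  have hy0 : 0 < y := lt_of_lt_of_le (by positivity) hy
  have hyR : (0 : ℝ) < y := by exact_mod_cast hy0
  have haR : (0 : ℝ) < a := by exact_mod_cast ha
  have h1 : ∑ p ∈ (Ioc y (2 * y)).filter Nat.Prime, (1 : ℝ) / (p : ℝ) ^ 2
      ≤ ((Ioc y (2 * y)).filter Nat.Prime).card • ((1 : ℝ) / (y : ℝ) ^ 2) := by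
    apply Finset.sum_le_card_nsmul
    intro p hp
    have h := (mem_Ioc.1 (mem_filter.1 hp).1).1
    have h' : (y : ℝ) ≤ p := by exact_mod_cast h.le
    apply one_div_le_one_div_of_le (by positivity)
    exact pow_le_pow_left₀ hyR.le h' 2
  have h2 : (a : ℝ) * ((Ioc y (2 * y)).filter Nat.Prime).card ≤ 4 * y := by
    exact_mod_cast block_card a y hy
  refine h1.trans ?_
  rw [nsmul_eq_mul, mul_one_div, div_le_div_iff₀ (by positivity) (by positivity)]
  nlinarith

theorem tail_sum (a i : ℕ) (ha : 0 < a) :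
    ∑ p ∈ (Ioc (2 ^ a) (2 ^ a * 2 ^ i)).filter Nat.Prime, (1 : ℝ) / (p : ℝ) ^ 2
      ≤ 8 / (a * 2 ^ a) * (1 - 1 / 2 ^ i) := by
  have haR : (0 : ℝ) < a := by exact_mod_cast ha
  induction i with
  | zero => simp
  | succ i ih =>
    have hle : 2 ^ a ≤ 2 ^ a * 2 ^ i := Nat.le_mul_of_pos_right _ (by positivity)
    have hsplit : Ioc (2 ^ a) (2 ^ a * 2 ^ (i + 1))
        = Ioc (2 ^ a) (2 ^ a * 2 ^ i) ∪ Ioc (2 ^ a * 2 ^ i) (2 * (2 ^ a * 2 ^ i)) := by
      rw [Finset.Ioc_union_Ioc_eq_Ioc hle (by omega)]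
      congr 1; ring
    have hdisj : Disjoint ((Ioc (2 ^ a) (2 ^ a * 2 ^ i)).filter Nat.Prime)
        ((Ioc (2 ^ a * 2 ^ i) (2 * (2 ^ a * 2 ^ i))).filter Nat.Prime) := by
      rw [Finset.disjoint_left]
      intro p h1 h2
      have h3 := (mem_Ioc.1 (mem_filter.1 h1).1).2
      have h4 := (mem_Ioc.1 (mem_filter.1 h2).1).1
      omega
    rw [hsplit, filter_union, sum_union hdisj]
    have hb := block_sum a (2 ^ a * 2 ^ i) ha hle
    push_cast at hb
    have e : (4 : ℝ) / (a * (2 ^ a * 2 ^ i)) + 8 / (a * 2 ^ a) * (1 - 1 / 2 ^ i)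
        = 8 / (a * 2 ^ a) * (1 - 1 / 2 ^ (i + 1)) := by
      field_simp
      ring
    linarith

theorem tail_sum' (a i : ℕ) (ha : 0 < a) :
    ∑ p ∈ (Ioc (2 ^ a) (2 ^ a * 2 ^ i)).filter Nat.Prime, (1 : ℝ) / (p : ℝ) ^ 2
      ≤ 8 / (a * 2 ^ a) := by
  have haR : (0 : ℝ) < a := by exact_mod_cast ha
  refine (tail_sum a i ha).trans ?_
  have h1 : (0 : ℝ) < 8 / (a * 2 ^ a) := by positivity
  have h2 : (0 : ℝ) < 1 / 2 ^ i := by positivity
  nlinarith

theorem six_mul_lt (z : ℕ) (hz : 12 ≤ z) : 6 * z * 16 < 2 ^ z := by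
  induction z, hz using Nat.le_induction with
  | base => norm_num
  | succ n hn ih => rw [pow_succ]; omega

/-- For every `a ≥ 96` there is a good `n` divisible by all odd primes up to `2 ^ a`. -/
theorem exists_good (a : ℕ) (ha : 96 ≤ a) :
    ∃ n : ℕ, 3 ≤ n ∧ (∀ p : ℕ, p.Prime → p ≠ 2 → p ≤ 2 ^ a → p ∣ n) ∧
      ∀ k : ℕ, 2 ^ k < n → Squarefree (n - 2 ^ k) := by
  set z : ℕ := 2 ^ a with hz
  have haz : a < z := Nat.lt_two_pow_self
  set P : ℕ := ∏ p ∈ (range (z + 1)).filter (fun p => p.Prime ∧ p ≠ 2), p with hP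
  have hPle : P ≤ 2 ^ (2 * z) := by
    have h1 : P ≤ primorial z := by
      unfold primorial
      apply Finset.prod_le_prod_of_subset_of_one_le'
      · intro p hp
        have h := mem_filter.1 hp
        exact mem_filter.2 ⟨h.1, h.2.1⟩
      · intro p hp _
        exact (mem_filter.1 hp).2.one_le
    have h2 : primorial z ≤ 4 ^ z := primorial_le_four_pow _
    calc P ≤ 4 ^ z := h1.trans h2
      _ = 2 ^ (2 * z) := by rw [pow_mul]; norm_num
  have hPdvd : ∀ p : ℕ, p.Prime → p ≠ 2 → p ≤ z → p ∣ P := by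
    intro p hp h2 hle
    exact Finset.dvd_prod_of_mem _ (mem_filter.2 ⟨mem_range.2 (by omega), hp, h2⟩)
  have hPcop : ∀ p : ℕ, p.Prime → (p = 2 ∨ z < p) → ¬ p ∣ P := by
    intro p hp hcase hdvd
    obtain ⟨q, hq, hpq⟩ := (Prime.dvd_finsetProd_iff hp.prime _).1 hdvd
    have hq' := mem_filter.1 hq
    have hq1 := mem_range.1 hq'.1
    have := (Nat.prime_dvd_prime_iff_eq hp hq'.2.1).1 hpq
    have h3 := hq'.2.2
    omega
  have hPodd : P % 2 = 1 := by
    have := hPcop 2 Nat.prime_two (Or.inl rfl)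
    omega
  have hPpos : 0 < P := by omega
  set M : ℕ := 2 ^ (4 * z - 3) with hM
  let n : ℕ → ℕ := fun j => 4 * P * j + 3 * P ^ 2
  have hnlt : ∀ j, j < M → n j < 2 ^ (6 * z) := by
    intro j hj
    have h1 : 4 * P * j < 2 ^ (6 * z - 1) := by
      calc 4 * P * j < 4 * P * M := Nat.mul_lt_mul_of_pos_left hj (by omega)
        _ ≤ 4 * 2 ^ (2 * z) * M := by gcongr
        _ = 2 ^ (6 * z - 1) := by
          rw [hM, show (4 : ℕ) = 2 ^ 2 from rfl, ← pow_add, ← pow_add]; congr 1; omega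
    have h2 : 3 * P ^ 2 ≤ 2 ^ (6 * z - 1) := by
      calc 3 * P ^ 2 ≤ 4 * (2 ^ (2 * z)) ^ 2 := by gcongr; norm_num
        _ = 2 ^ (4 * z + 2) := by
          rw [show (4 : ℕ) = 2 ^ 2 from rfl, ← pow_mul, ← pow_add]; congr 1; omega
        _ ≤ 2 ^ (6 * z - 1) := Nat.pow_le_pow_right (by norm_num) (by omega)
    have h3 : 2 ^ (6 * z) = 2 ^ (6 * z - 1) * 2 := by
      rw [← pow_succ]; congr 1; omega
    show 4 * P * j + 3 * P ^ 2 < 2 ^ (6 * z)
    omega
  set Pr : Finset ℕ := (Ioc (2 ^ a) (2 ^ a * 2 ^ (3 * z - a))).filter Nat.Prime with hPr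
  have hpow : 2 ^ a * 2 ^ (3 * z - a) = 2 ^ (3 * z) := by
    rw [← pow_add]; congr 1; omega
  let B : ℕ → ℕ → Finset ℕ := fun k p =>
    (range M).filter (fun j => 2 ^ k < n j ∧ p * p ∣ n j - 2 ^ k)
  have hB : ∀ k, ∀ p ∈ Pr, ((B k p).card : ℝ) ≤ (M : ℝ) * (1 / (p : ℝ) ^ 2) + 1 := by
    intro k p hp
    have hp' := mem_filter.1 hp
    have hpz : z < p := (mem_Ioc.1 hp'.1).1
    have hpp : p.Prime := hp'.2
    have h := card_le_of_congr M (p * p) (B k p)
      (filter_subset _ _) (by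
        intro i hi j hj
        obtain ⟨hi1, hi2⟩ := (mem_filter.1 hi).2
        obtain ⟨hj1, hj2⟩ := (mem_filter.1 hj).2
        have e1 : n i ≡ 2 ^ k [MOD p * p] := ((Nat.modEq_iff_dvd' hi1.le).2 hi2).symm
        have e2 : n j ≡ 2 ^ k [MOD p * p] := ((Nat.modEq_iff_dvd' hj1.le).2 hj2).symm
        have e3 : 4 * P * i + 3 * P ^ 2 ≡ 4 * P * j + 3 * P ^ 2 [MOD p * p] := e1.trans e2.symm
        have e4 : 4 * P * i ≡ 4 * P * j [MOD p * p] := Nat.ModEq.add_right_cancel' _ e3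
        have hc : Nat.Coprime p (4 * P) := by
          apply Nat.Coprime.mul_right
          · have : Nat.Coprime p 2 := (Nat.coprime_primes hpp Nat.prime_two).2 (by omega)
            exact Nat.Coprime.pow_right 2 this
          · exact (Nat.Prime.coprime_iff_not_dvd hpp).2 (hPcop p hpp (Or.inr hpz))
        have hc2 : Nat.Coprime (p * p) (4 * P) := Nat.Coprime.mul_left hc hc
        exact Nat.ModEq.cancel_left_of_coprime hc2 e4)
    push_cast at h
    rw [mul_one_div, pow_two]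
    exact h
  let Bad : Finset ℕ := (range (6 * z)).biUnion (fun k => Pr.biUnion (fun p => B k p))
  have hPrcard : (Pr.card : ℝ) ≤ 2 ^ (3 * z) - 1 := by
    have h1 : Pr.card ≤ (Ioc (2 ^ a) (2 ^ a * 2 ^ (3 * z - a))).card := card_filter_le _ _
    rw [Nat.card_Ioc, hpow] at h1
    have h2 : 0 < 2 ^ a := by positivity
    have h3 : 0 < 2 ^ (3 * z) := by positivity
    have h4 : Pr.card + 1 ≤ 2 ^ (3 * z) := by omega
    have h5 : (Pr.card : ℝ) + 1 ≤ 2 ^ (3 * z) := by exact_mod_cast h4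
    linarith
  have hBad : (Bad.card : ℝ) < M := by
    have haR : (96 : ℝ) ≤ a := by exact_mod_cast ha
    have hzR : (0 : ℝ) < z := by exact_mod_cast (by omega : 0 < z)
    have hMR : (0 : ℝ) < M := by rw [hM]; positivity
    have h1 : ∀ k, ((Pr.biUnion (fun p => B k p)).card : ℝ)
        ≤ (M : ℝ) * (8 / (a * z)) + 2 ^ (3 * z) := by
      intro k
      have e1 : ((Pr.biUnion (fun p => B k p)).card : ℝ) ≤ ∑ p ∈ Pr, ((B k p).card : ℝ) := by
        exact_mod_cast card_biUnion_le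
      have e2 : ∑ p ∈ Pr, ((B k p).card : ℝ) ≤ ∑ p ∈ Pr, ((M : ℝ) * (1 / (p : ℝ) ^ 2) + 1) :=
        sum_le_sum (hB k)
      rw [sum_add_distrib, ← mul_sum, sum_const, nsmul_eq_mul, mul_one] at e2
      have e3 := tail_sum' a (3 * z - a) (by omega)
      have e4 : ((2 : ℝ) ^ a) = z := by rw [hz]; push_cast; rfl
      rw [e4] at e3
      have e5 := mul_le_mul_of_nonneg_left e3 hMR.le
      linarith
    have h2 : (Bad.card : ℝ)
        ≤ ∑ k ∈ range (6 * z), ((Pr.biUnion (fun p => B k p)).card : ℝ) := by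
      exact_mod_cast card_biUnion_le
    have h3 : ∑ k ∈ range (6 * z), ((Pr.biUnion (fun p => B k p)).card : ℝ)
        ≤ ∑ k ∈ range (6 * z), ((M : ℝ) * (8 / (a * z)) + 2 ^ (3 * z)) :=
      sum_le_sum (fun k _ => h1 k)
    rw [sum_const, card_range, nsmul_eq_mul] at h3
    push_cast at h3
    have h4 : (6 * (z : ℝ)) * ((M : ℝ) * (8 / (a * z))) ≤ M / 2 := by
      have : (6 * (z : ℝ)) * ((M : ℝ) * (8 / (a * z))) = M * (48 / a) := by
        field_simp
        ring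
      rw [this]
      have h5 : (48 : ℝ) / a ≤ 1 / 2 := by
        rw [div_le_div_iff₀ (by linarith) (by norm_num)]; linarith
      nlinarith
    have h5 : (6 * (z : ℝ)) * 2 ^ (3 * z) < M / 2 := by
      have e1 := six_mul_lt z (by omega)
      have e2 : 6 * z * 2 ^ (3 * z) * 2 < M := by
        have e3 : M * 8 = 2 ^ z * 2 ^ (3 * z) := by
          rw [hM, show (8 : ℕ) = 2 ^ 3 from rfl, ← pow_add, ← pow_add]; congr 1; omega
        have e4 : 6 * z * 16 * 2 ^ (3 * z) < 2 ^ z * 2 ^ (3 * z) :=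
          Nat.mul_lt_mul_of_pos_right e1 (by positivity)
        nlinarith
      have e5 : ((6 * z * 2 ^ (3 * z) * 2 : ℕ) : ℝ) < M := by exact_mod_cast e2
      push_cast at e5
      linarith
    nlinarith
  have hex : ∃ j ∈ range M, j ∉ Bad := by
    by_contra hcon
    push Not at hcon
    have h1 : (range M).card ≤ Bad.card := card_le_card hcon
    rw [card_range] at h1
    have h2 : (M : ℝ) ≤ Bad.card := by exact_mod_cast h1
    linarith
  obtain ⟨j, hj, hjB⟩ := hex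
  have hjM : j < M := mem_range.1 hj
  have hPn : P ∣ n j := ⟨4 * j + 3 * P, by show 4 * P * j + 3 * P ^ 2 = _; ring⟩
  have hn4 : n j % 4 = 3 := by
    show (4 * P * j + 3 * P ^ 2) % 4 = 3
    have h1 : P % 4 = 1 ∨ P % 4 = 3 := by omega
    have h2 : P ^ 2 % 4 = 1 := by
      rcases h1 with h1 | h1 <;> simp [Nat.pow_mod, h1]
    rw [mul_assoc]
    omega
  refine ⟨n j, by omega, fun p hp h2 hle => (hPdvd p hp h2 hle).trans hPn, ?_⟩
  intro k hk
  rw [Nat.squarefree_iff_prime_squarefree]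
  intro p hp hdvd
  have hk6 : k < 6 * z :=
    (Nat.pow_lt_pow_iff_right (by norm_num : 1 < 2)).1 (hk.trans (hnlt j hjM))
  by_cases h2 : p = 2
  · subst h2
    rcases k with _ | _ | k
    · simp at hdvd hk; omega
    · simp at hdvd hk; omega
    · have : 2 ^ (k + 1 + 1) = 4 * 2 ^ k := by ring
      rw [this] at hdvd hk
      omega
  by_cases hle : p ≤ z
  · have h3 : p ∣ n j := (hPdvd p hp h2 hle).trans hPn
    have h4 : p ∣ n j - 2 ^ k := (Dvd.intro _ rfl).trans hdvd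
    have h5 : p ∣ 2 ^ k := (Nat.dvd_sub_iff_right hk.le h3).1 h4
    exact h2 ((Nat.prime_dvd_prime_iff_eq hp Nat.prime_two).1 (hp.dvd_of_dvd_pow h5))
  · apply hjB
    have h3 : p * p ≤ n j - 2 ^ k := Nat.le_of_dvd (by omega) hdvd
    have h4 : p * p < 2 ^ (3 * z) * 2 ^ (3 * z) := by
      have := hnlt j hjM
      have e : 2 ^ (3 * z) * 2 ^ (3 * z) = 2 ^ (6 * z) := by rw [← pow_add]; congr 1; omega
      rw [e]
      exact lt_of_le_of_lt (h3.trans (Nat.sub_le _ _)) this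
    have h5 : p < 2 ^ (3 * z) := Nat.mul_self_lt_mul_self_iff.1 h4
    refine mem_biUnion.2 ⟨k, mem_range.2 hk6, mem_biUnion.2 ⟨p, ?_, ?_⟩⟩
    · exact mem_filter.2 ⟨mem_Ioc.2 ⟨by omega, by rw [hpow]; exact h5.le⟩, hp⟩
    · exact mem_filter.2 ⟨hj, hk, hdvd⟩

end Pool.Agent.MP_fcd74d_nt.H23
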